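import Pool.Agent.Helper60.FF.DefsB

/-!
# NRV: absolute values of rational functions near a point
-/

set_option autoImplicit false

namespace Pool.Agent.Helper60.FF

open Polynomial

section

variable {p : ℕ} [hp : Fact p.Prime]

theorem nrv_norm {x y : ℂ_[p]} (h : ‖x - y‖ < ‖y‖) : ‖x‖ = ‖y‖ := by
  apply le_antisymm
  · have h1 := PadicComplex.isNonarchimedean p (x - y) y
    rw [sub_add_cancel] at h1
    exact h1.trans (max_le h.le le_rfl)
  · have h1 := PadicComplex.isNonarchimedean p (y - x) x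
    rw [sub_add_cancel] at h1
    rcases le_max_iff.1 h1 with h2 | h2
    · rw [norm_sub_rev] at h2
      exact absurd h (not_lt.2 h2)
    · exact h2

theorem nrv_poly (Q : Polynomial ℂ_[p]) (hQ : Q ≠ 0) (v : ℂ_[p]) :
    ∃ ε Cc : ℝ, 0 < ε ∧ 0 < Cc ∧ ∀ τ : ℂ_[p], ‖τ - v‖ < ε →
      ‖Q.eval τ‖ = Cc * ‖τ - v‖ ^ (Q.rootMultiplicity v) := by
  obtain ⟨R, hR, hnd⟩ := Q.exists_eq_pow_rootMultiplicity_mul_and_not_dvd hQ v
  have hv : R.eval v ≠ 0 := by
    intro h
    exact hnd (dvd_iff_isRoot.2 h)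
  have hpos : 0 < ‖R.eval v‖ := norm_pos_iff.2 hv
  have hc : ContinuousAt (fun τ : ℂ_[p] => R.eval τ) v := R.continuous.continuousAt
  obtain ⟨ε, hε, h1⟩ := Metric.continuousAt_iff.1 hc ‖R.eval v‖ hpos
  refine ⟨ε, ‖R.eval v‖, hε, hpos, fun τ hτ => ?_⟩
  have h2 := h1 (x := τ) (by rw [dist_eq_norm]; exact hτ)
  rw [dist_eq_norm] at h2
  have h3 := nrv_norm h2
  have h4 : Q.eval τ = (τ - v) ^ (Q.rootMultiplicity v) * R.eval τ := by
    conv_lhs => rw [hR]
    rw [eval_mul, eval_pow, eval_sub, eval_X, eval_C]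
  rw [h4, norm_mul, norm_pow, h3, mul_comm]

theorem nrv_A (A : Subfield ℂ_[p]) (P : Polynomial A) (hP : P ≠ 0) (v : ℂ_[p]) :
    ∃ ε Cc : ℝ, 0 < ε ∧ 0 < Cc ∧ ∀ τ : ℂ_[p], ‖τ - v‖ < ε →
      ‖P.eval₂ A.subtype τ‖ = Cc * ‖τ - v‖ ^ ((P.map A.subtype).rootMultiplicity v) := by
  have h0 : P.map A.subtype ≠ 0 := by
    rw [Ne, Polynomial.map_eq_zero]
    exact hP
  obtain ⟨ε, Cc, h1, h2, h3⟩ := nrv_poly (P.map A.subtype) h0 v
  refine ⟨ε, Cc, h1, h2, fun τ hτ => ?_⟩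
  rw [← eval_map]
  exact h3 τ hτ

end

/-- NRV: absolute values of rational functions near a point -/
theorem st_NRV (hE : ST_EVH) : ST_NRV := by
  intro p _ A hA h hh
  have hn : h.num ≠ 0 := RatFunc.num_ne_zero hh
  have hd : h.denom ≠ 0 := h.denom_ne_zero
  have hev : ∀ τ : ℂ_[p], ev A τ h = h.num.eval₂ A.subtype τ / h.denom.eval₂ A.subtype τ :=
    fun τ => rfl
  refine ⟨fun v => ?_, fun v hv => ?_⟩
  · obtain ⟨ε1, C1, a1, a2, a3⟩ := nrv_A A h.num hn (v : ℂ_[p])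
    obtain ⟨ε2, C2, b1, b2, b3⟩ := nrv_A A h.denom hd (v : ℂ_[p])
    refine ⟨min ε1 ε2, C1 / C2, lt_min a1 b1, div_pos a2 b2, fun τ hτ hτv => ?_⟩
    have h1 := a3 τ (hτv.trans_le (min_le_left _ _))
    have h2 := b3 τ (hτv.trans_le (min_le_right _ _))
    have e1 : (h.num.map A.subtype).rootMultiplicity (v : ℂ_[p]) = h.num.rootMultiplicity v :=
      (Polynomial.eq_rootMultiplicity_map (A.subtype_injective) v).symm
    have e2 : (h.denom.map A.subtype).rootMultiplicity (v : ℂ_[p]) = h.denom.rootMultiplicity v :=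
      (Polynomial.eq_rootMultiplicity_map (A.subtype_injective) v).symm
    rw [e1] at h1
    rw [e2] at h2
    have h3 : ‖τ - (v : ℂ_[p])‖ ≠ 0 := by
      rw [Ne, norm_eq_zero, sub_eq_zero]
      intro h4
      apply hτ
      rw [h4]
      exact v.2
    unfold ordv
    rw [hev, norm_div, h1, h2, zpow_sub₀ h3, zpow_natCast, zpow_natCast, mul_div_mul_comm]
  · obtain ⟨ε1, C1, a1, a2, a3⟩ := nrv_A A h.num hn v
    obtain ⟨ε2, C2, b1, b2, b3⟩ := nrv_A A h.denom hd v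
    obtain ⟨e, -, -, -, he, -⟩ := hE p A hA v hv
    have key : ∀ P : Polynomial A, P ≠ 0 → (P.map A.subtype).rootMultiplicity v = 0 := by
      intro P hP
      apply rootMultiplicity_eq_zero
      intro h1
      have h2 : (P.map A.subtype).eval v = 0 := h1
      rw [eval_map, ← he P] at h2
      have h3 : algebraMap (Polynomial A) (RatFunc A) P = 0 := by
        by_contra h4
        exact h4 ((map_eq_zero e).1 h2)
      exact hP ((map_eq_zero_iff _ (RatFunc.algebraMap_injective A)).1 h3)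
    refine ⟨min ε1 ε2, C1 / C2, lt_min a1 b1, div_pos a2 b2, fun τ hτ hτv => ?_⟩
    have h1 := a3 τ (hτv.trans_le (min_le_left _ _))
    have h2 := b3 τ (hτv.trans_le (min_le_right _ _))
    rw [key _ hn, pow_zero, mul_one] at h1
    rw [key _ hd, pow_zero, mul_one] at h2
    rw [hev, norm_div, h1, h2]

end Pool.Agent.Helper60.FF
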