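import Pool.Agent.Helper24.FF.Stmts
import Pool.Agent.Helper63.FL.IPL

/-! Full list for MP_866009_co, part F: replacing the elastic edges one after the other. -/

set_option autoImplicit false

namespace Pool.Agent.Helper24.FF

open Pool.Agent.Helper64.CT Pool.Agent.Helper64.DT Pool.Agent.Helper64.FL
open Pool.Agent.Helper64.HG (Ovl Model Circ IC HellyCircle ChordModel)

/-- induced paths depend on the adjacency on the list only -/
theorem tkp_ipt {V : Type} (G H : SimpleGraph V) : ∀ l : List V,
    (∀ x ∈ l, ∀ y ∈ l, (H.Adj x y ↔ G.Adj x y)) → IPt G l → IPt H l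
  | [], _, _ => trivial
  | a :: l, h, hp => by
    obtain ⟨h1, h2, h3, h4⟩ := hp
    refine ⟨h1, ?_, ?_, ?_⟩
    · intro b hb
      have hb' : b ∈ l := List.mem_of_mem_head? hb
      exact (h a List.mem_cons_self b (List.mem_cons_of_mem a hb')).2 (h2 b hb)
    · intro x hx hadj
      have hx' : x ∈ l := List.mem_of_mem_tail hx
      exact h3 x hx ((h a List.mem_cons_self x (List.mem_cons_of_mem a hx')).1 hadj)
    · exact tkp_ipt G H l (fun x hx y hy => h x (List.mem_cons_of_mem a hx) y
        (List.mem_cons_of_mem a hy)) h4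

/-- the neighbour of the start of an induced path -/
theorem tkp_head {V : Type} (G : SimpleGraph V) (u v : V) (A : List V)
    (h : IPt G (u :: (A ++ [v]))) (x : V) (hx : x ∈ A) (hadj : G.Adj u x) :
    A.head? = some x := by
  cases A with
  | nil => exact absurd hx List.not_mem_nil
  | cons p A =>
    rcases List.mem_cons.1 hx with h1 | h1
    · rw [h1]
      rfl
    · exact absurd hadj (h.2.2.1 x (by
        simp only [List.cons_append, List.tail_cons, List.mem_append]
        exact Or.inl h1))

section

variable {V : Type} {G : SimpleGraph V} {T : Ent} {f : ℕ → V} {P : ℕ → List V}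

theorem tkp_inj (hR : RW G T f P) {i j : ℕ} (hi : i < T.n) (hj : j < T.n) (h : f i = f j) :
    i = j := by
  rcases Nat.lt_trichotomy i j with h1 | h1 | h1
  · exact absurd h (hR.nm i j h1 hj).1
  · exact h1
  · exact absurd h.symm (hR.nm j i h1 hi).1

theorem tkp_sym (hT : ST_TOK) (i j : ℕ) (l : List (ℕ × ℕ)) : memp i j l = memp j i l := by
  have h := (hT ⟨0, [], []⟩).1
  have h1 : memp i j l = true ↔ memp j i l = true := by
    rw [h i j l, h j i l]
    exact Or.comm
  exact Bool.eq_iff_iff.2 h1

theorem tkp_nm (hT : ST_TOK) (hR : RW G T f P) {i j : ℕ} (hij : i ≠ j) (hi : i < T.n)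
    (hj : j < T.n) (h : memp i j T.el = false) : (G.Adj (f i) (f j) ↔ memp i j T.rg = true) := by
  rcases Nat.lt_or_gt_of_ne hij with h1 | h1
  · exact (hR.nm i j h1 hj).2 h
  · rw [tkp_sym hT i j T.rg, G.adj_comm]
    exact (hR.nm j i h1 hi).2 (by rw [tkp_sym hT j i T.el]; exact h)

theorem tkp_el (hT : ST_TOK) {e a b : ℕ} (h : T.el[e]? = some (a, b)) :
    memp a b T.el = true := by
  rw [(hT T).1 a b T.el]
  exact Or.inl (List.mem_of_getElem? h)

/-- adjacent named vertices are adjacent in the entry -/
theorem tkp_hg (hT : ST_TOK) (hR : RW G T f P) (k : ℕ) {i j : ℕ} (hi : i < T.n) (hj : j < T.n)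
    (h : (HG G T f k).Adj (f i) (f j)) : adT T i j = true := by
  have hij : i ≠ j := by
    intro h1
    rw [h1] at h
    exact (HG G T f k).loopless.irrefl _ h
  unfold adT
  rcases Bool.eq_false_or_eq_true (memp i j T.el) with h1 | h1
  · rw [h1, Bool.or_true]
  rcases h with h | ⟨_, e, a, b, _, he, h2⟩
  · rw [(tkp_nm hT hR hij hi hj h1).1 h, Bool.true_or]
  · obtain ⟨ha, hb, _⟩ := hR.pth e a b he
    have hm := tkp_el hT he
    rcases h2 with ⟨h3, h4⟩ | ⟨h3, h4⟩
    · have e1 := tkp_inj hR hi ha h3
      have e2 := tkp_inj hR hj hb h4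
      rw [e1, e2, hm] at h1
      exact absurd h1 (by decide)
    · have e1 := tkp_inj hR hi hb h3
      have e2 := tkp_inj hR hj ha h4
      rw [e1, e2, tkp_sym hT, hm] at h1
      exact absurd h1 (by decide)

/-- the interiors contain no named vertices -/
theorem tkp_ne (hR : RW G T f P) {e : ℕ} (he : e < T.el.length) {x : V} (hx : x ∈ P e) {m : ℕ}
    (hm : m < T.n) : x ≠ f m := by
  have h : T.el[e]? = some ((T.el[e]).1, (T.el[e]).2) := by
    rw [List.getElem?_eq_getElem he]
  exact ((hR.pth e _ _ h).2.2.2.2 x hx m hm).1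

/-- neighbours of the interiors are the same in all intermediate graphs -/
theorem tkp_in (hR : RW G T f P) (k : ℕ) {e : ℕ} (he : e < T.el.length) {x : V} (hx : x ∈ P e)
    (y : V) : ((HG G T f k).Adj x y ↔ G.Adj x y) := by
  constructor
  · rintro (h | ⟨_, e', a, b, _, he', h2⟩)
    · exact h
    · obtain ⟨ha, hb, _⟩ := hR.pth e' a b he'
      rcases h2 with ⟨h3, _⟩ | ⟨h3, _⟩
      · exact absurd h3 (tkp_ne hR he hx ha)
      · exact absurd h3 (tkp_ne hR he hx hb)
  · exact fun h => Or.inl h

/-- going from `k` to `k + 1` only changes the adjacency of the ends of the edge number `k` -/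
theorem tkp_step (k a b : ℕ) (hk : T.el[k]? = some (a, b)) (y z : V)
    (h1 : ¬ (y = f a ∧ z = f b)) (h2 : ¬ (y = f b ∧ z = f a)) :
    ((HG G T f (k + 1)).Adj y z ↔ (HG G T f k).Adj y z) := by
  constructor
  · rintro (h | ⟨h, e, c, d, he, h3⟩)
    · exact Or.inl h
    · exact Or.inr ⟨h, e, c, d, by omega, h3⟩
  · rintro (h | ⟨h, e, c, d, he, h3, h4⟩)
    · exact Or.inl h
    · rcases Nat.lt_or_ge k e with h5 | h5
      · exact Or.inr ⟨h, e, c, d, h5, h3, h4⟩
      · have h6 : e = k := by omega
        rw [h6, hk] at h3
        have h7 := Option.some.inj h3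
        have e1 : a = c := congrArg Prod.fst h7
        have e2 : b = d := congrArg Prod.snd h7
        rw [← e1, ← e2] at h4
        rcases h4 with h4 | h4
        · exact absurd h4 h1
        · exact absurd h4 h2

end

theorem st_TKP (hT : ST_TOK) (hSB : ST_SBP) (hPE : ST_PEL) (hC : ST_CEC) (hI : ST_IPX) :
    ST_TKP := by
  intro V G T f P I E hR hrg hoe hE h0
  obtain ⟨hO, hD⟩ := (hT T).2.2.2.1 hoe
  -- the ends of the elastic edges are different
  have hdis : ∀ e e' a b c d : ℕ, e ≠ e' → T.el[e]? = some (a, b) → T.el[e']? = some (c, d) →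
      a ≠ c ∧ a ≠ d ∧ b ≠ c ∧ b ≠ d := by
    intro e e' a b c d hne h1 h2
    rcases Nat.lt_or_gt_of_ne hne with h | h
    · exact hD e e' a b c d h h1 h2
    · obtain ⟨q1, q2, q3, q4⟩ := hD e' e c d a b h h2 h1
      exact ⟨q1.symm, q3.symm, q2.symm, q4.symm⟩
  have hlt : ∀ e a b : ℕ, T.el[e]? = some (a, b) → e < T.el.length := by
    intro e a b h
    exact (List.getElem?_eq_some_iff.1 h).1
  have hget : ∀ e, e < T.el.length → ∃ a b, T.el[e]? = some (a, b) := by
    intro e he
    exact ⟨(T.el[e]).1, (T.el[e]).2, by rw [List.getElem?_eq_getElem he]⟩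
  -- the sets
  have main : ∀ k, k ≤ T.el.length → CE (HG G T f k)
      ({x | ∃ j, j < T.n ∧ j ∈ I ∧ x = f j} ∪ {x | ∃ e, e < k ∧ e ∈ E ∧ x ∈ P e}) := by
    intro k
    induction k with
    | zero =>
      intro _
      refine hC V (TG T f) (HG G T f 0) _ _ h0 ?_ ?_
      · rintro x (hx | ⟨e, he, _⟩)
        · exact hx
        · exact absurd he (Nat.not_lt_zero e)
      · rintro x (⟨i, hi, _, rfl⟩ | ⟨e, he, _⟩)
        · rintro y (⟨j, hj, _, rfl⟩ | ⟨e, he, _⟩)
          · intro hne
            have hij : i ≠ j := fun h => hne (by rw [h])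
            constructor
            · intro h
              have h1 := tkp_hg hT hR 0 hi hj h
              refine ⟨hne, i, j, hi, hj, rfl, rfl, ?_⟩
              unfold adT at h1
              exact (Bool.or_eq_true_iff).1 h1
            · rintro ⟨_, i', j', hi', hj', e1, e2, h1⟩
              have e3 := tkp_inj hR hi hi' e1
              have e4 := tkp_inj hR hj hj' e2
              rw [← e3, ← e4] at h1
              rcases Bool.eq_false_or_eq_true (memp i j T.el) with h2 | h2
              · rcases ((hT T).1 i j T.el).1 h2 with h3 | h3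
                · obtain ⟨e, he⟩ := List.mem_iff_getElem?.1 h3
                  exact Or.inr ⟨hne, e, i, j, Nat.zero_le e, he, Or.inl ⟨rfl, rfl⟩⟩
                · obtain ⟨e, he⟩ := List.mem_iff_getElem?.1 h3
                  exact Or.inr ⟨hne, e, j, i, Nat.zero_le e, he, Or.inr ⟨rfl, rfl⟩⟩
              · rcases h1 with h1 | h1
                · exact Or.inl ((tkp_nm hT hR hij hi hj h2).2 h1)
                · rw [h1] at h2
                  exact absurd h2 (by decide)
          · exact absurd he (Nat.not_lt_zero e)
        · exact absurd he (Nat.not_lt_zero e)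
    | succ k ih =>
      intro hk
      have hkl : k < T.el.length := by omega
      have ih := ih (by omega)
      obtain ⟨a, b, hab⟩ := hget k hkl
      obtain ⟨ha, hb, hne, hip, hin⟩ := hR.pth k a b hab
      have hfab : f a ≠ f b := fun h => hne (tkp_inj hR ha hb h)
      obtain ⟨_, _, _, hda, hdb, hdc, _⟩ := hO k a b hab
      -- the old set
      obtain ⟨S, hS⟩ : ∃ S : Set V, S = {x | ∃ j, j < T.n ∧ j ∈ I ∧ x = f j} ∪
        {x | ∃ e, e < k ∧ e ∈ E ∧ x ∈ P e} := ⟨_, rfl⟩
      rw [← hS] at ih
      have hSm : ∀ y ∈ S, (∃ j, j < T.n ∧ j ∈ I ∧ y = f j) ∨ ∃ e, e < k ∧ e ∈ E ∧ y ∈ P e := by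
        intro y hy
        rw [hS] at hy
        exact hy
      have hSf : ∀ j, j < T.n → f j ∈ S → j ∈ I := by
        intro j hj h
        rcases hSm _ h with ⟨i, hi, hiI, hx⟩ | ⟨e, he, _, hx⟩
        · rw [tkp_inj hR hj hi hx]
          exact hiI
        · exact absurd rfl (tkp_ne hR (by omega) hx hj)
      have hSI : ∀ j, j < T.n → j ∈ I → f j ∈ S := by
        intro j hj h
        rw [hS]
        exact Or.inl ⟨j, hj, h, rfl⟩
      -- the ends of edge `k` are not adjacent to the interiors
      have hnoa : ∀ e, e < k → ∀ x ∈ P e, ¬ G.Adj x (f a) ∧ ¬ G.Adj x (f b) := by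
        intro e he x hx
        obtain ⟨c, d, hcd⟩ := hget e (by omega)
        obtain ⟨q1, q2, q3, q4⟩ := hdis k e a b c d (by omega) hab hcd
        have h1 := (hR.pth e c d hcd).2.2.2.2 x hx
        exact ⟨(h1 a ha).2 q1 q2, (h1 b hb).2 q3 q4⟩
      -- the degrees
      have hN : ∀ y ∈ S, ((HG G T f k).Adj (f a) y ∨ (HG G T f k).Adj (f b) y) →
          ∃ j, j < T.n ∧ y = f j := by
        intro y hy h
        rcases hSm y hy with ⟨j, hj, _, hy'⟩ | ⟨e, he, _, hy'⟩
        · exact ⟨j, hj, hy'⟩
        · exfalso
          rcases h with h | h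
          · exact (hnoa e he y hy').1 ((tkp_in hR k (by omega) hy' _).1 h.symm)
          · exact (hnoa e he y hy').2 ((tkp_in hR k (by omega) hy' _).1 h.symm)
      -- same adjacency
      have hsame : ∀ y ∈ S, ∀ z ∈ S, ¬ (y = f a ∧ z = f b) → ¬ (y = f b ∧ z = f a) →
          ((HG G T f (k + 1)).Adj y z ↔ (HG G T f k).Adj y z) :=
        fun y _ z _ h1 h2 => tkp_step k a b hab y z h1 h2
      -- if an end is not in the set, then the old model is a model of the new graph
      have hstay : (a ∉ I ∨ b ∉ I) → CE (HG G T f (k + 1)) S := by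
        intro hI'
        refine hC V (HG G T f k) (HG G T f (k + 1)) S S ih (fun _ h => h) ?_
        intro x hx y hy _
        refine hsame x hx y hy ?_ ?_
        · rintro ⟨e1, e2⟩
          rw [e1] at hx
          rw [e2] at hy
          rcases hI' with h | h
          · exact h (hSf a ha hx)
          · exact h (hSf b hb hy)
        · rintro ⟨e1, e2⟩
          rw [e1] at hx
          rw [e2] at hy
          rcases hI' with h | h
          · exact h (hSf a ha hy)
          · exact h (hSf b hb hx)
      -- the interior of edge `k` and the old set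
      have hPS : ∀ x ∈ P k, x ∉ S := by
        intro x hx h
        rcases hSm x h with ⟨j, hj, _, hx'⟩ | ⟨e, he, _, hx'⟩
        · exact tkp_ne hR hkl hx hj hx'
        · exact (hR.sep e k he hkl x hx' x hx).1 rfl
      have hPA : ∀ x ∈ P k, ∀ y ∈ S, (HG G T f (k + 1)).Adj x y → (y = f a ∧ a ∈ I) ∨
          (y = f b ∧ b ∈ I) := by
        intro x hx y hy h
        have h1 := (tkp_in hR (k + 1) hkl hx y).1 h
        rcases hSm y hy with ⟨j, hj, hjI, hy'⟩ | ⟨e, he, _, hy'⟩
        · rw [hy'] at h1
          by_cases h2 : j = a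
          · left
            rw [← h2]
            exact ⟨hy', hjI⟩
          · by_cases h3 : j = b
            · right
              rw [← h3]
              exact ⟨hy', hjI⟩
            · exact absurd h1 ((hin x hx j hj).2 h2 h3)
        · exact absurd h1.symm (hR.sep e k he hkl y hy' x hx).2
      -- the path in the new graph
      have hip' : IPt (HG G T f (k + 1)) (f a :: (P k ++ [f b])) := by
        refine tkp_ipt G (HG G T f (k + 1)) _ ?_ hip
        have hcl : ∀ x ∈ f a :: (P k ++ [f b]), x = f a ∨ x = f b ∨ x ∈ P k := by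
          intro x hx
          rcases List.mem_cons.1 hx with h | h
          · exact Or.inl h
          · rcases List.mem_append.1 h with h | h
            · exact Or.inr (Or.inr h)
            · exact Or.inr (Or.inl (List.mem_singleton.1 h))
        have hno : ∀ e c d : ℕ, k + 1 ≤ e → T.el[e]? = some (c, d) → ∀ x, (x = f a ∨ x = f b ∨
            x ∈ P k) → x ≠ f c ∧ x ≠ f d := by
          intro e c d he hcd x hx
          obtain ⟨hc, hd, _⟩ := hR.pth e c d hcd
          obtain ⟨q1, q2, q3, q4⟩ := hdis k e a b c d (by omega) hab hcd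
          rcases hx with rfl | rfl | hx
          · exact ⟨fun h => q1 (tkp_inj hR ha hc h), fun h => q2 (tkp_inj hR ha hd h)⟩
          · exact ⟨fun h => q3 (tkp_inj hR hb hc h), fun h => q4 (tkp_inj hR hb hd h)⟩
          · exact ⟨tkp_ne hR hkl hx hc, tkp_ne hR hkl hx hd⟩
        intro x hx y _
        constructor
        · rintro (h | ⟨_, e, c, d, he, hcd, h⟩)
          · exact h
          · have h1 := hno e c d he hcd x (hcl x hx)
            rcases h with ⟨h, _⟩ | ⟨h, _⟩
            · exact absurd h h1.1
            · exact absurd h h1.2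
        · exact fun h => Or.inl h
      have hipP : IPt (HG G T f (k + 1)) (P k) := by
        have h1 : IPt (HG G T f (k + 1)) ([f a] ++ (P k ++ [f b])) := hip'
        have h2 := ((hI V (HG G T f (k + 1))).1 _ _ h1).2.1
        exact ((hI V (HG G T f (k + 1))).1 _ _ h2).1
      -- the new set
      have hnew : ∀ W : Set V, (∀ x, x ∈ W ↔ (x ∈ S ∨ (k ∈ E ∧ x ∈ P k))) →
          CE (HG G T f (k + 1)) W → CE (HG G T f (k + 1))
            ({x | ∃ j, j < T.n ∧ j ∈ I ∧ x = f j} ∪ {x | ∃ e, e < k + 1 ∧ e ∈ E ∧ x ∈ P e}) := by
        intro W hW h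
        refine hC V _ _ W _ h ?_ (fun _ _ _ _ _ => Iff.rfl)
        intro x hx
        rw [hW, hS]
        rcases hx with hx | ⟨e, he, heE, hx⟩
        · exact Or.inl (Or.inl hx)
        · rcases Nat.lt_or_ge e k with h1 | h1
          · exact Or.inl (Or.inr ⟨e, h1, heE, hx⟩)
          · have h2 : e = k := by omega
            rw [h2] at heE hx
            exact Or.inr ⟨heE, hx⟩
      by_cases hkE : k ∈ E
      swap
      · refine hnew S (fun x => ⟨Or.inl, fun h => h.elim id (fun h => absurd h.1 hkE)⟩) ?_
        exact hstay (Or.inl (hE k a b hab hkE).1)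
      have hnew' : CE (HG G T f (k + 1)) (S ∪ LS (P k)) → CE (HG G T f (k + 1))
            ({x | ∃ j, j < T.n ∧ j ∈ I ∧ x = f j} ∪ {x | ∃ e, e < k + 1 ∧ e ∈ E ∧ x ∈ P e}) :=
        hnew (S ∪ LS (P k)) (fun x => ⟨fun h => h.imp id (fun h => ⟨hkE, h⟩),
          fun h => h.imp id (fun h => h.2)⟩)
      by_cases haI : a ∈ I
      · by_cases hbI : b ∈ I
        · by_cases hP0 : P k = []
          · -- nothing to do
            refine hnew S (fun x => ⟨Or.inl, fun h => h.elim id (fun h => ?_)⟩) ?_
            · rw [hP0] at h
              exact absurd h.2 List.not_mem_nil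
            · refine hC V (HG G T f k) (HG G T f (k + 1)) S S ih (fun _ h => h) ?_
              have hG : G.Adj (f a) (f b) := by
                rw [hP0] at hip
                exact hip.2.1 (f b) rfl
              intro x hx y hy _
              by_cases h1 : x = f a ∧ y = f b
              · rw [h1.1, h1.2]
                exact ⟨fun _ => Or.inl hG, fun _ => Or.inl hG⟩
              · by_cases h2 : x = f b ∧ y = f a
                · rw [h2.1, h2.2]
                  exact ⟨fun _ => Or.inl hG.symm, fun _ => Or.inl hG.symm⟩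
                · exact hsame x hx y hy h1 h2
          · -- subdivision
            apply hnew'
            refine hSB V (HG G T f k) (HG G T f (k + 1)) S (f a) (f b) (P k) ih
              (hSI a ha haI) (hSI b hb hbI) hfab
              (Or.inr ⟨hfab, k, a, b, le_refl k, hab, Or.inl ⟨rfl, rfl⟩⟩) hP0 hip' ?_ ?_ ?_ ?_ ?_
            · intro x hx
              refine ⟨hPS x hx, ?_⟩
              intro y hy hya hyb h
              rcases hPA x hx y hy h with h | h
              · exact hya h.1
              · exact hyb h.1
            · exact hsame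
            · intro y hy z hz hyb hzb h1 h2
              obtain ⟨i, hi, e1⟩ := hN y hy (Or.inl h1)
              obtain ⟨j, hj, e2⟩ := hN z hz (Or.inl h2)
              rw [e1] at h1 hyb ⊢
              rw [e2] at h2 hzb ⊢
              rw [hda i j hi hj (fun h => hyb (by rw [h])) (fun h => hzb (by rw [h]))
                (tkp_hg hT hR k ha hi h1) (tkp_hg hT hR k ha hj h2)]
            · intro y hy z hz hya hza h1 h2
              obtain ⟨i, hi, e1⟩ := hN y hy (Or.inr h1)
              obtain ⟨j, hj, e2⟩ := hN z hz (Or.inr h2)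
              rw [e1] at h1 hya ⊢
              rw [e2] at h2 hza ⊢
              rw [hdb i j hi hj (fun h => hya (by rw [h])) (fun h => hza (by rw [h]))
                (tkp_hg hT hR k hb hi h1) (tkp_hg hT hR k hb hj h2)]
            · rintro y hy ⟨h1, h2⟩
              obtain ⟨i, hi, e1⟩ := hN y hy (Or.inl h1)
              rw [e1] at h1 h2
              exact hdc i hi ⟨tkp_hg hT hR k ha hi h1, tkp_hg hT hR k hb hi h2⟩
        · -- pendant path at `f a`
          apply hnew'
          refine hPE V (HG G T f (k + 1)) S (P k) (hstay (Or.inr hbI)) hipP hPS ?_ ?_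
          · intro x hx y hy h
            rcases hPA x hx y hy h with h' | h'
            · rw [h'.1] at h
              exact tkp_head _ _ _ _ hip' x hx h.symm
            · exact absurd h'.2 hbI
          · intro x hx y hy z hz h1 h2
            rcases hPA x hx y hy h1 with h' | h'
            · rcases hPA x hx z hz h2 with h'' | h''
              · rw [h'.1, h''.1]
              · exact absurd h''.2 hbI
            · exact absurd h'.2 hbI
      · by_cases hbI : b ∈ I
        · -- pendant path at `f b`
          have hL : LS (P k) = LS (P k).reverse := by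
            ext x
            exact List.mem_reverse.symm
          apply hnew'
          rw [hL]
          have hrev := (st_IPL V (HG G T f (k + 1))).1
          have hip2 : IPt (HG G T f (k + 1)) (f b :: ((P k).reverse ++ [f a])) := by
            have h := hrev _ hip'
            simpa only [List.reverse_cons, List.reverse_append, List.reverse_nil, List.nil_append,
              List.cons_append, List.append_assoc] using h
          refine hPE V (HG G T f (k + 1)) S (P k).reverse (hstay (Or.inl haI)) (hrev _ hipP)
            (fun x hx => hPS x (List.mem_reverse.1 hx)) ?_ ?_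
          · intro x hx y hy h
            rcases hPA x (List.mem_reverse.1 hx) y hy h with h' | h'
            · exact absurd h'.2 haI
            · rw [h'.1] at h
              exact tkp_head _ _ _ _ hip2 x hx h.symm
          · intro x hx y hy z hz h1 h2
            rcases hPA x (List.mem_reverse.1 hx) y hy h1 with h' | h'
            · exact absurd h'.2 haI
            · rcases hPA x (List.mem_reverse.1 hx) z hz h2 with h'' | h''
              · exact absurd h''.2 haI
              · rw [h'.1, h''.1]
        · -- no neighbours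
          apply hnew'
          refine hPE V (HG G T f (k + 1)) S (P k) (hstay (Or.inl haI)) hipP hPS ?_ ?_
          · intro x hx y hy h
            rcases hPA x hx y hy h with h' | h'
            · exact absurd h'.2 haI
            · exact absurd h'.2 hbI
          · intro x hx y hy z hz h1 h2
            rcases hPA x hx y hy h1 with h' | h'
            · exact absurd h'.2 haI
            · exact absurd h'.2 hbI
  -- the end
  refine hC V _ G _ _ (main T.el.length le_rfl) (fun _ h => h) ?_
  intro x _ y _ _
  constructor
  · exact fun h => Or.inl h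
  · rintro (h | ⟨_, e, a, b, he, hab, _⟩)
    · exact h
    · exact absurd (hlt e a b hab) (by omega)

end Pool.Agent.Helper24.FF
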